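import Pool.Agent.K.MP_4503fd_co.C1

/-! LD-convergence of a sparse graph sequence does not imply colored-neighborhood-convergence. -/

namespace Pool.Agent.Results.MP_4503fd_co.LDNotColored

open Filter Pool.Agent.P.MP_4503fd_co

theorem result : ∃ (D : ℕ) (V : ℕ → Type) (_ : ∀ n, Fintype (V n)) (G : ∀ n, SimpleGraph (V n)),
    (∀ n v, ((G n).neighborSet v).ncard ≤ D) ∧
    Tendsto (fun n => Fintype.card (V n)) atTop atTop ∧ LDConv V G ∧ ¬ CNConv V G :=
  main

end Pool.Agent.Results.MP_4503fd_co.LDNotColored
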